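import Pool.Agent.MP_1b0c96_an.Defs
import Pool.Agent.MP_1b0c96_an.LK
import Pool.Agent.MP_1b0c96_an.UK

/-!
# The area of the smallest convex dimension traps of the baker's map, to ten decimals

`0.11886321921 ≤ δ(B) < 0.11886321927`.
-/

set_option autoImplicit false

open MeasureTheory

namespace Pool.Agent.Results.MP_1b0c96_an.TrapConstant

open BakerTrap

theorem result :
    0.11886321921 ≤ delta ∧ delta ≤ deltaOpen ∧ deltaOpen < 0.11886321927 := by
  have hbd : BddBelow ((fun H : Set (ℝ × ℝ) => (volume H).toReal) '' {H | ConvexTrap H}) := by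
    refine ⟨0, ?_⟩
    rintro _ ⟨H, -, rfl⟩
    exact ENNReal.toReal_nonneg
  have hbd' : BddBelow ((fun H : Set (ℝ × ℝ) => (volume H).toReal) ''
      {H | ConvexTrap H ∧ IsOpen H}) := by
    refine ⟨0, ?_⟩
    rintro _ ⟨H, -, rfl⟩
    exact ENNReal.toReal_nonneg
  have hmem : (volume trapHole).toReal ∈ (fun H : Set (ℝ × ℝ) => (volume H).toReal) ''
      {H | ConvexTrap H ∧ IsOpen H} := ⟨trapHole, ⟨trapHole_trap, trapHole_open⟩, rfl⟩
  refine ⟨?_, ?_, ?_⟩
  · refine le_csInf ⟨_, ⟨trapHole, trapHole_trap, rfl⟩⟩ ?_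
    rintro _ ⟨H, hH, rfl⟩
    exact lower hH
  · refine csInf_le_csInf hbd ⟨_, hmem⟩ ?_
    rintro _ ⟨H, ⟨hH, -⟩, rfl⟩
    exact ⟨H, hH, rfl⟩
  · exact (csInf_le hbd' hmem).trans_lt upper

end Pool.Agent.Results.MP_1b0c96_an.TrapConstant
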